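import Pool.Agent.Run7.h787.ST.Iface3

set_option autoImplicit false

/-!
Piece LZ of the project ST of helper787: the partial zeta functions from the L-functions.
-/

open NumberField IsDedekindDomain

noncomputable section

namespace Pool.Agent.Run7.h227.ST

open Pool.Agent.Run7.h787.ST

/-- the orthogonality relations -/
theorem orth {G : Type} [Group G] [Fintype G] (hc : ∀ a b : G, a * b = b * a) :
    ∃ _ : Fintype (G →* ℂˣ),
      (∀ g : G, g ≠ 1 → ∑ χ : G →* ℂˣ, ((χ g : ℂˣ) : ℂ) = 0) ∧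
      (∑ χ : G →* ℂˣ, ((χ 1 : ℂˣ) : ℂ) = Fintype.card G) ∧
      ∀ χ : G →* ℂˣ, χ ≠ 1 → ∑ g : G, ((χ g : ℂˣ) : ℂ) = 0 := by
  classical
  letI : CommGroup G := { (inferInstance : Group G) with mul_comm := hc }
  haveI : NeZero ((Monoid.exponent G : ℕ) : ℂ) :=
    ⟨Nat.cast_ne_zero.2 Monoid.exponent_ne_zero_of_finite⟩
  haveI : HasEnoughRootsOfUnity ℂ (Monoid.exponent G) := inferInstance
  haveI : Finite (G →* ℂˣ) := inferInstance
  refine ⟨Fintype.ofFinite _, ?_, ?_, ?_⟩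
  · intro g hg
    obtain ⟨χ₀, h0⟩ := CommGroup.exists_apply_ne_one_of_hasEnoughRootsOfUnity G ℂ hg
    letI := Fintype.ofFinite (G →* ℂˣ)
    have h1 : ∑ χ : G →* ℂˣ, ((χ g : ℂˣ) : ℂ) =
        ((χ₀ g : ℂˣ) : ℂ) * ∑ χ : G →* ℂˣ, ((χ g : ℂˣ) : ℂ) := by
      conv_lhs => rw [← Equiv.sum_comp (Equiv.mulLeft χ₀)]
      rw [Finset.mul_sum]
      refine Finset.sum_congr rfl fun χ _ => ?_
      rw [Equiv.coe_mulLeft, MonoidHom.mul_apply, Units.val_mul]
    have h2 : (((χ₀ g : ℂˣ) : ℂ) - 1) * ∑ χ : G →* ℂˣ, ((χ g : ℂˣ) : ℂ) = 0 := by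
      rw [sub_mul, one_mul, ← h1, sub_self]
    rcases mul_eq_zero.1 h2 with h3 | h3
    · exact absurd (Units.ext (sub_eq_zero.1 h3)) h0
    · exact h3
  · letI := Fintype.ofFinite (G →* ℂˣ)
    have h1 : ∀ χ : G →* ℂˣ, ((χ 1 : ℂˣ) : ℂ) = 1 := fun χ => by rw [map_one, Units.val_one]
    rw [Finset.sum_congr rfl fun χ _ => h1 χ, Finset.sum_const, nsmul_eq_mul, mul_one,
      Finset.card_univ]
    have h2 := CommGroup.card_monoidHom_of_hasEnoughRootsOfUnity G ℂ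
    rw [Nat.card_eq_fintype_card, Nat.card_eq_fintype_card] at h2
    rw [h2]
  · intro χ hχ
    obtain ⟨g₀, h0⟩ : ∃ g₀, χ g₀ ≠ 1 := by
      by_contra hcon
      push Not at hcon
      exact hχ (MonoidHom.ext hcon)
    have h1 : ∑ g : G, ((χ g : ℂˣ) : ℂ) = ((χ g₀ : ℂˣ) : ℂ) * ∑ g : G, ((χ g : ℂˣ) : ℂ) := by
      conv_lhs => rw [← Equiv.sum_comp (Equiv.mulLeft g₀)]
      rw [Finset.mul_sum]
      refine Finset.sum_congr rfl fun g _ => ?_
      rw [Equiv.coe_mulLeft, map_mul, Units.val_mul]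
    have h2 : (((χ g₀ : ℂˣ) : ℂ) - 1) * ∑ g : G, ((χ g : ℂˣ) : ℂ) = 0 := by
      rw [sub_mul, one_mul, ← h1, sub_self]
    rcases mul_eq_zero.1 h2 with h3 | h3
    · exact absurd (Units.ext (sub_eq_zero.1 h3)) h0
    · exact h3

/-- the multiplicative function on the ideals with given values at the prime ideals -/
theorem exists_art (K : Type) [Field K] [NumberField K] {G : Type} [Group G]
    (hc : ∀ a b : G, a * b = b * a) (f : HeightOneSpectrum (𝓞 K) → G) :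
    ∃ art : Ideal (𝓞 K) → G, (∀ a b : Ideal (𝓞 K), a ≠ ⊥ → b ≠ ⊥ → art (a * b) = art a * art b) ∧
      ∀ p : HeightOneSpectrum (𝓞 K), art p.asIdeal = f p := by
  classical
  letI : CommGroup G := { (inferInstance : Group G) with mul_comm := hc }
  let fr : Ideal (𝓞 K) → G := fun I =>
    if h : I.IsPrime ∧ I ≠ ⊥ then f ⟨I, h.1, h.2⟩ else 1
  refine ⟨fun a => ((UniqueFactorizationMonoid.normalizedFactors a).map fr).prod, ?_, ?_⟩
  · intro a b ha hb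
    show ((UniqueFactorizationMonoid.normalizedFactors (a * b)).map fr).prod = _
    rw [UniqueFactorizationMonoid.normalizedFactors_mul ha hb, Multiset.map_add,
      Multiset.prod_add]
  · intro p
    show ((UniqueFactorizationMonoid.normalizedFactors p.asIdeal).map fr).prod = _
    rw [UniqueFactorizationMonoid.normalizedFactors_irreducible p.irreducible, normalize_eq,
      Multiset.map_singleton, Multiset.prod_singleton]
    show (if h : p.asIdeal.IsPrime ∧ p.asIdeal ≠ ⊥ then f ⟨p.asIdeal, h.1, h.2⟩ else 1) = f p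
    rw [dif_pos ⟨p.isPrime, p.ne_bot⟩]

theorem norm_char {G : Type} [Group G] [Finite G] (χ : G →* ℂˣ) (g : G) : ‖((χ g : ℂˣ) : ℂ)‖ = 1 := by
  have h1 : (((χ g : ℂˣ) : ℂ)) ^ (orderOf g) = 1 := by
    rw [← Units.val_pow_eq_pow_val, ← map_pow, pow_orderOf_eq_one, map_one, Units.val_one]
  exact Complex.norm_eq_one_of_pow_eq_one h1 (orderOf_pos g).ne'

theorem t_LZ : S_DIR → S_LZ := by
  classical
  intro hDIR K _ _ _ H S D hab
  haveI := hab.1
  haveI := hab.2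
  haveI : Finite (Gal H) := inferInstance
  letI : Fintype (Gal H) := Fintype.ofFinite _
  have hc : ∀ a b : Gal H, a * b = b * a := fun a b => by
    have h1 : IsMulCommutative (Gal H) := inferInstance
    exact h1.is_comm.comm a b
  obtain ⟨hft, ho1, ho2, ho3⟩ := orth hc
  obtain ⟨art, hart1, hart2⟩ := exists_art K hc D.frob
  have hn : (Fintype.card (Gal H) : ℂ) ≠ 0 := Nat.cast_ne_zero.2 Fintype.card_ne_zero
  -- the Dirichlet series
  have hser : ∀ (χ : Gal H →* ℂˣ) (s : ℂ), 1 < s.re →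
      HasSum (fun a : {a : Ideal (𝓞 K) // a ≠ ⊥ ∧ ∀ p ∈ S, ¬ a ≤ p.asIdeal} =>
        ((χ (art a) : ℂˣ) : ℂ) * (Ideal.absNorm (a : Ideal (𝓞 K)) : ℂ) ^ (-s)) (D.L χ s) := by
    intro χ s hs
    obtain ⟨A, hA1, hA2⟩ := hDIR K S (fun a => ((χ (art a) : ℂˣ) : ℂ))
      (fun a b ha hb => by rw [hart1 a b ha hb, map_mul, Units.val_mul])
      (fun a => norm_char χ _) s hs
    have h1 := D.euler χ s hs
    have h2 : A = D.L χ s := by
      refine hA2.unique ?_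
      convert h1 using 6
      rw [hart2]
    rw [← h2]
    exact hA1
  let Z : Gal H → ℂ → ℂ := fun g s =>
    (Fintype.card (Gal H) : ℂ)⁻¹ * ∑ χ : Gal H →* ℂˣ, ((χ g⁻¹ : ℂˣ) : ℂ) * D.L χ s
  refine ⟨⟨art, hart1, fun p hp => by rw [hart2]; exact D.isFrob p hp, Z, ?_, ?_⟩, ?_⟩
  · intro g
    refine DifferentiableOn.const_mul ?_ _
    refine DifferentiableOn.fun_sum fun χ _ => ?_
    exact (D.analytic χ).const_mul _
  · intro g s hs
    -- all ideals prime to `S`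
    have h1 : HasSum (fun a : {a : Ideal (𝓞 K) // a ≠ ⊥ ∧ ∀ p ∈ S, ¬ a ≤ p.asIdeal} =>
        (Fintype.card (Gal H) : ℂ)⁻¹ * ∑ χ : Gal H →* ℂˣ, ((χ g⁻¹ : ℂˣ) : ℂ) *
          (((χ (art a) : ℂˣ) : ℂ) * (Ideal.absNorm (a : Ideal (𝓞 K)) : ℂ) ^ (-s))) (Z g s) :=
      (hasSum_sum fun χ _ => (hser χ s hs).mul_left _).mul_left _
    have h2 : ∀ a : {a : Ideal (𝓞 K) // a ≠ ⊥ ∧ ∀ p ∈ S, ¬ a ≤ p.asIdeal},
        (Fintype.card (Gal H) : ℂ)⁻¹ * ∑ χ : Gal H →* ℂˣ, ((χ g⁻¹ : ℂˣ) : ℂ) *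
          (((χ (art a) : ℂˣ) : ℂ) * (Ideal.absNorm (a : Ideal (𝓞 K)) : ℂ) ^ (-s)) =
        if art a = g then (Ideal.absNorm (a : Ideal (𝓞 K)) : ℂ) ^ (-s) else 0 := by
      intro a
      have h3 : ∑ χ : Gal H →* ℂˣ, ((χ g⁻¹ : ℂˣ) : ℂ) *
          (((χ (art a) : ℂˣ) : ℂ) * (Ideal.absNorm (a : Ideal (𝓞 K)) : ℂ) ^ (-s)) =
          (∑ χ : Gal H →* ℂˣ, ((χ (g⁻¹ * art a) : ℂˣ) : ℂ)) *
            (Ideal.absNorm (a : Ideal (𝓞 K)) : ℂ) ^ (-s) := by
        rw [Finset.sum_mul]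
        refine Finset.sum_congr rfl fun χ _ => ?_
        rw [map_mul, Units.val_mul, mul_assoc]
      rw [h3]
      by_cases h4 : art a = g
      · rw [if_pos h4, h4, inv_mul_cancel, ho2, ← mul_assoc, inv_mul_cancel₀ hn, one_mul]
      · rw [if_neg h4, ho1, zero_mul, mul_zero]
        intro h5
        exact h4 (inv_mul_eq_one.1 h5).symm
    rw [funext h2] at h1
    let i : {a : Ideal (𝓞 K) // a ≠ ⊥ ∧ (∀ p ∈ S, ¬ a ≤ p.asIdeal) ∧ art a = g} →
        {a : Ideal (𝓞 K) // a ≠ ⊥ ∧ ∀ p ∈ S, ¬ a ≤ p.asIdeal} :=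
      fun a => ⟨a.1, a.2.1, a.2.2.1⟩
    have hi : Function.Injective i := by
      intro a b h
      have h6 : (i a).1 = (i b).1 := by rw [h]
      exact Subtype.ext h6
    have h5 := (hi.hasSum_iff (f := fun a : {a : Ideal (𝓞 K) // a ≠ ⊥ ∧ ∀ p ∈ S, ¬ a ≤ p.asIdeal} =>
        if art a = g then (Ideal.absNorm (a : Ideal (𝓞 K)) : ℂ) ^ (-s) else 0) (a := Z g s) ?_).2 h1
    · convert h5 using 2 with a
      show _ = if art a = g then _ else 0
      rw [if_pos a.2.2.2]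
    · intro a ha
      show (if art a = g then (Ideal.absNorm (a : Ideal (𝓞 K)) : ℂ) ^ (-s) else 0) = 0
      rw [if_neg]
      intro h6
      exact ha ⟨⟨a.1, a.2.1, a.2.2, h6⟩, rfl⟩
  · intro ψ s
    show D.L ψ s = ∑ᶠ g : Gal H, ((ψ g : ℂˣ) : ℂ) * Z g s
    rw [finsum_eq_sum_of_fintype]
    have h1 : ∀ g : Gal H, ((ψ g : ℂˣ) : ℂ) * Z g s =
        (Fintype.card (Gal H) : ℂ)⁻¹ * ∑ χ : Gal H →* ℂˣ, (((ψ * χ⁻¹) g : ℂˣ) : ℂ) * D.L χ s := by
      intro g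
      show ((ψ g : ℂˣ) : ℂ) * ((Fintype.card (Gal H) : ℂ)⁻¹ *
        ∑ χ : Gal H →* ℂˣ, ((χ g⁻¹ : ℂˣ) : ℂ) * D.L χ s) = _
      rw [mul_left_comm, Finset.mul_sum]
      congr 1
      refine Finset.sum_congr rfl fun χ _ => ?_
      rw [MonoidHom.mul_apply, MonoidHom.inv_apply, Units.val_mul, map_inv, mul_assoc]
    rw [Finset.sum_congr rfl fun g _ => h1 g, ← Finset.mul_sum, Finset.sum_comm]
    have h2 : ∀ χ : Gal H →* ℂˣ, ∑ g : Gal H, (((ψ * χ⁻¹) g : ℂˣ) : ℂ) * D.L χ s =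
        if χ = ψ then (Fintype.card (Gal H) : ℂ) * D.L ψ s else 0 := by
      intro χ
      rw [← Finset.sum_mul]
      by_cases h3 : χ = ψ
      · have h5 : ∀ g : Gal H, (((ψ * χ⁻¹) g : ℂˣ) : ℂ) = 1 := by
          intro g
          rw [h3, MonoidHom.mul_apply, MonoidHom.inv_apply, mul_inv_cancel, Units.val_one]
        rw [if_pos h3, Finset.sum_congr rfl fun g _ => h5 g, Finset.sum_const, nsmul_eq_mul,
          mul_one, Finset.card_univ, h3]
      · rw [if_neg h3, ho3, zero_mul]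
        intro h4
        exact h3 (mul_inv_eq_one.1 h4).symm
    rw [Finset.sum_congr rfl fun χ _ => h2 χ, Finset.sum_ite_eq' Finset.univ ψ,
      if_pos (Finset.mem_univ _), ← mul_assoc, inv_mul_cancel₀ hn, one_mul]

end Pool.Agent.Run7.h227.ST
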